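import Mathlib
import Pool.Agent.Y269.GP.Simple

/-!
# A unital simple separable C*-algebra that is not finitely generated

The algebra is an inductive limit of the algebras `A_l` of all continuous functions `f` from the
product `X_l` of `l` spheres (of rapidly increasing dimensions) to the matrices of size `2 ^ l`
which are equivariant for the antipodal maps of the factors; the element `f` of `A_l` is sent to
the function `(p, y) ↦ diag (f p, f (q l))` in `A_{l+1}`. A Borsuk-Ulam theorem on products of
spheres shows that finitely many elements always have a common invariant subspace of a fixed finite
dimension at some point, so that they generate a proper C*-subalgebra.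
-/

set_option autoImplicit false

namespace Pool.Agent.Results.MP_704412_an.NotFinitelyGenerated

/-- There is a unital separable C*-algebra `A`, simple (even without nontrivial algebraic two-sided
ideals), such that for every finite subset `F` of `A` the smallest unital C*-subalgebra of `A`
containing `F` is not `A`. -/
theorem result : ∃ (A : Type) (_ : CStarAlgebra A),
    TopologicalSpace.SeparableSpace A ∧ IsSimpleRing A ∧
    ∀ F : Set A, F.Finite → (StarAlgebra.adjoin ℂ F).topologicalClosure ≠ ⊤ :=
  Pool.Agent.Y269.GP.main

end Pool.Agent.Results.MP_704412_an.NotFinitelyGenerated
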